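import Mathlib
import Pool.Agent.Helper37.RG3.RW

set_option autoImplicit false
set_option linter.unusedSectionVars false

/-!
Long odd cycles in `r`-graphs: paths, cycles, separations.
-/

namespace Pool.Agent.Helper18.RL

open Finset Pool.Agent.Helper37.RG3

variable {V : Type} [Fintype V] [DecidableEq V]

/-- `Pth R S a b`: a path of the graph `R` from `a` to `b` with vertex set `S`. -/
inductive Pth (R : V → V → Prop) : Finset V → V → V → Prop
  | one (a : V) : Pth R {a} a a
  | cons {S : Finset V} {a b c : V} (h : R a b) (ha : a ∉ S) (p : Pth R S b c) :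
      Pth R (insert a S) a c

/-- `S` is the vertex set of an odd cycle of length at least five. -/
def LO (R : V → V → Prop) (S : Finset V) : Prop :=
  Odd S.card ∧ 5 ≤ S.card ∧ ∃ a b, Pth R S a b ∧ R b a

/-- `S` and `T` can be separated by at most three vertices. -/
def SP (R : V → V → Prop) (S T : Finset V) : Prop :=
  ∃ L Z : Finset V, Z.card ≤ 3 ∧ Disjoint L Z ∧ S ⊆ L ∪ Z ∧ Disjoint L T ∧
    ∀ x ∈ L, ∀ y, R x y → y ∈ L ∪ Z

/-- any two disjoint long odd cycles can be separated by at most three vertices -/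
def CS (U : Finset V) (w : V → V → ℕ) : Prop :=
  ∀ S T, S ⊆ U → T ⊆ U → Disjoint S T → LO (Adj w) S → LO (Adj w) T → SP (Adj w) S T

/-- `w` is an `r`-regular multigraph with vertex set `U`. -/
structure RR (U : Finset V) (w : V → V → ℕ) (r : ℕ) : Prop where
  symm : ∀ u v, w u v = w v u
  irr : ∀ u, w u u = 0
  supp : ∀ u v, w u v ≠ 0 → u ∈ U
  deg : ∀ u ∈ U, ∑ v, w u v = r

/-- `m` is a perfect matching of the set `P` in the graph `R`. -/
def MT (R : V → V → Prop) (P : Finset V) (m : V → V) : Prop :=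
  ∀ v ∈ P, m v ∈ P ∧ m (m v) = v ∧ R v (m v)

/-- The graph in which the set `K` is replaced by a gadget on `a, b, c` (and `x₀ ∈ K`): a relation
contained in the old edges outside `K` and the pairs of elements of `{a, b, c, x₀}`. -/
def Gad (R R' : V → V → Prop) (K : Finset V) (a b c x₀ : V) : Prop :=
  ∀ x y, R' x y → (R x y ∧ x ∉ K ∧ y ∉ K) ∨
    (x ∈ ({a, b, c, x₀} : Finset V) ∧ y ∈ ({a, b, c, x₀} : Finset V))

/-- the even gadget: the edges `ab`, `ac`, `bc` -/
def RE (R : V → V → Prop) (K : Finset V) (a b c : V) : V → V → Prop := fun x y =>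
  (R x y ∧ x ∉ K ∧ y ∉ K) ∨ (x ≠ y ∧ x ∈ ({a, b, c} : Finset V) ∧ y ∈ ({a, b, c} : Finset V))

/-- the odd gadget: a vertex `x₀ ∈ K` joined to `a`, `b`, `c`, and the edge `bc` -/
def RO (R : V → V → Prop) (K : Finset V) (a b c x₀ : V) : V → V → Prop := fun x y =>
  (R x y ∧ x ∉ K ∧ y ∉ K) ∨ (x = x₀ ∧ y ∈ ({a, b, c} : Finset V)) ∨
    (y = x₀ ∧ x ∈ ({a, b, c} : Finset V)) ∨ (x = b ∧ y = c) ∨ (x = c ∧ y = b)

namespace Pth

variable {R R' : V → V → Prop} {S T : Finset V} {a b c d : V}

theorem left_mem (h : Pth R S a b) : a ∈ S := by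
  cases h with
  | one => simp
  | cons _ _ _ => simp

theorem right_mem (h : Pth R S a b) : b ∈ S := by
  induction h with
  | one a => simp
  | cons _ _ _ ih => exact mem_insert_of_mem ih

theorem mono (h : Pth R S a b) (hR : ∀ x ∈ S, ∀ y ∈ S, R x y → R' x y) : Pth R' S a b := by
  induction h with
  | one a => exact .one a
  | cons h1 h2 h3 ih =>
    refine .cons (hR _ (by simp) _ (mem_insert_of_mem h3.left_mem) h1) h2 (ih ?_)
    intro x hx y hy
    exact hR x (mem_insert_of_mem hx) y (mem_insert_of_mem hy)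

theorem append (h : Pth R S a b) (hbc : R b c) (h' : Pth R T c d) (hd : Disjoint S T) :
    Pth R (S ∪ T) a d := by
  induction h with
  | one a =>
    rw [← insert_eq]
    exact .cons hbc (by simpa using hd) h'
  | cons h1 h2 h3 ih =>
    rw [disjoint_insert_left] at hd
    rw [insert_union]
    refine .cons h1 ?_ (ih hbc hd.2)
    rw [mem_union]
    rintro (h | h)
    · exact h2 h
    · exact hd.1 h

theorem symm (hR : ∀ x y, R x y → R y x) (h : Pth R S a b) : Pth R S b a := by
  induction h with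
  | one a => exact .one a
  | cons h1 h2 h3 ih =>
    have := ih.append (hR _ _ h1) (.one _) (by simpa using h2)
    rwa [union_comm, ← insert_eq] at this

theorem eq_of_loop (h : Pth R S a a) : S = {a} := by
  cases h with
  | one => rfl
  | cons _ h2 h3 => exact absurd h3.right_mem h2

theorem eq_of_card_one (h : Pth R S a b) (hc : S.card = 1) : a = b := by
  obtain ⟨x, rfl⟩ := Finset.card_eq_one.mp hc
  have h1 := h.left_mem
  have h2 := h.right_mem
  rw [mem_singleton] at h1 h2
  rw [h1, h2]

/-- Split a path in front of a vertex. -/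
theorem split (h : Pth R S a b) {x : V} (hx : x ∈ S) (hxa : x ≠ a) :
    ∃ S₁ S₂ p, S₁ ∪ S₂ = S ∧ Disjoint S₁ S₂ ∧ Pth R S₁ a p ∧ R p x ∧ Pth R S₂ x b := by
  induction h with
  | one a => exact absurd (mem_singleton.mp hx) hxa
  | @cons S a b c h1 h2 h3 ih =>
    rcases mem_insert.mp hx with h | h
    · exact absurd h hxa
    · by_cases hxb : x = b
      · subst hxb
        exact ⟨{a}, S, a, (insert_eq a S).symm, by simpa using h2, .one a, h1, h3⟩
      · obtain ⟨S₁, S₂, p, e, hd, k1, k2, k3⟩ := ih h hxb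
        refine ⟨insert a S₁, S₂, p, by rw [insert_union, e], ?_, .cons h1 ?_ k1, k2, k3⟩
        · rw [disjoint_insert_left]
          refine ⟨fun h => h2 ?_, hd⟩
          rw [← e]
          exact mem_union_right _ h
        · intro h
          apply h2
          rw [← e]
          exact mem_union_left _ h

/-- Split a path at its first edge which is not in `R`. -/
theorem real_or (h : Pth R' S a b) (R : V → V → Prop) : Pth R S a b ∨
    ∃ S₁ S₂ p q, S₁ ∪ S₂ = S ∧ Disjoint S₁ S₂ ∧ Pth R S₁ a p ∧ Pth R' S₁ a p ∧ R' p q ∧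
      ¬ R p q ∧ Pth R' S₂ q b := by
  induction h with
  | one a => exact Or.inl (.one a)
  | @cons S a b c h1 h2 h3 ih =>
    by_cases hab : R a b
    · rcases ih with h | ⟨S₁, S₂, p, q, e, hd, k1, k1', k2, k3, k4⟩
      · exact Or.inl (.cons hab h2 h)
      · have ha1 : a ∉ S₁ := by
          intro h
          apply h2
          rw [← e]
          exact mem_union_left _ h
        refine Or.inr ⟨insert a S₁, S₂, p, q, by rw [insert_union, e], ?_, .cons hab ha1 k1,
          .cons h1 ha1 k1', k2, k3, k4⟩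
        rw [disjoint_insert_left]
        refine ⟨fun h => h2 ?_, hd⟩
        rw [← e]
        exact mem_union_right _ h
    · exact Or.inr ⟨{a}, S, a, b, (insert_eq a S).symm, by simpa using h2, .one a, .one a, h1, hab,
        h3⟩

/-- A path inside a connected set. -/
theorem of_con {R : V → V → Prop} {K : Finset V} (hK : Con R K) {a b : V} (ha : a ∈ K)
    (hb : b ∈ K) : ∃ S, S ⊆ K ∧ Pth R S a b := by
  classical
  by_contra hcon
  push Not at hcon
  set P := K.filter fun x => ∃ S, S ⊆ K ∧ Pth R S a x with hP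
  have haP : a ∈ P := by
    rw [hP, mem_filter]
    exact ⟨ha, {a}, by simpa using ha, .one a⟩
  obtain ⟨p, hp, q, hq, hpq⟩ := hK.2 P (filter_subset _ _) ⟨a, haP⟩ (by
    intro h
    have : b ∈ P := by rw [h]; exact hb
    rw [hP, mem_filter] at this
    obtain ⟨-, S, hS, hp⟩ := this
    exact hcon S hS hp)
  rw [hP, mem_filter] at hp
  obtain ⟨hpK, S, hS, hp⟩ := hp
  rw [mem_sdiff] at hq
  apply hq.2
  rw [hP, mem_filter]
  refine ⟨hq.1, ?_⟩
  by_cases hqS : q ∈ S
  · -- `q` is on the path
    by_cases hqa : q = a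
    · subst hqa
      exact ⟨{q}, by simpa using hq.1, .one q⟩
    · obtain ⟨S₁, S₂, p', e, hd, k1, k2, k3⟩ := hp.split hqS hqa
      refine ⟨S₁ ∪ {q}, ?_, k1.append k2 (.one q) ?_⟩
      · rw [union_subset_iff, singleton_subset_iff]
        exact ⟨(subset_union_left.trans e.subset).trans hS, hq.1⟩
      · rw [disjoint_singleton_right]
        intro h
        exact disjoint_left.mp hd h k3.left_mem
  · refine ⟨S ∪ {q}, ?_, hp.append hpq (.one q) (by simpa using hqS)⟩
    rw [union_subset_iff, singleton_subset_iff]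
    exact ⟨hS, hq.1⟩

end Pth

/-- Rotate a cycle. -/
theorem rotate {R : V → V → Prop} {S : Finset V} {a b : V} (hp : Pth R S a b) (hab : R b a)
    {x : V} (hx : x ∈ S) : ∃ y, Pth R S x y ∧ R y x := by
  by_cases hxa : x = a
  · subst hxa
    exact ⟨b, hp, hab⟩
  · obtain ⟨S₁, S₂, p, e, hd, k1, k2, k3⟩ := hp.split hx hxa
    refine ⟨p, ?_, k2⟩
    rw [← e, union_comm]
    exact k3.append hab k1 hd.symm

/-- A cycle of `R'` is a cycle of `R`, or it can be written with a last edge which is not in
`R`. -/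
theorem cyc_real_or {R' : V → V → Prop} {S : Finset V} {a b : V} (hp : Pth R' S a b)
    (hab : R' b a) (R : V → V → Prop) : (Pth R S a b ∧ R b a) ∨
    ∃ p q, Pth R' S p q ∧ R' q p ∧ ¬ R q p := by
  by_cases h1 : R b a
  · rcases hp.real_or R with h | ⟨S₁, S₂, p, q, e, hd, k1, k1', k2, k3, k4⟩
    · exact Or.inl ⟨h, h1⟩
    · right
      refine ⟨q, p, ?_, k2, k3⟩
      rw [← e, union_comm]
      exact k4.append hab k1' hd.symm
  · exact Or.inr ⟨a, b, hp, hab, h1⟩

/-- Two paths with the same ends and otherwise disjoint vertex sets form a cycle. -/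
theorem glue {R : V → V → Prop} {S Q : Finset V} {p q : V} (hS : Pth R S p q)
    (hQ : Pth R Q q p) (hpq : p ≠ q) (h3 : 3 ≤ Q.card)
    (hd : ∀ x ∈ Q, x ∈ S → x = p ∨ x = q) :
    (∃ a b, Pth R (S ∪ Q) a b ∧ R b a) ∧ (S ∪ Q).card + 2 = S.card + Q.card := by
  have hcard : (S ∪ Q).card + 2 = S.card + Q.card := by
    have h1 := Finset.card_union_add_card_inter S Q
    have h2 : S ∩ Q = {p, q} := by
      ext x
      simp only [mem_inter, mem_insert, mem_singleton]
      constructor
      · rintro ⟨k1, k2⟩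
        exact hd x k2 k1
      · rintro (rfl | rfl)
        · exact ⟨hS.left_mem, hQ.right_mem⟩
        · exact ⟨hS.right_mem, hQ.left_mem⟩
    rw [h2, Finset.card_pair hpq] at h1
    exact h1
  refine ⟨?_, hcard⟩
  cases hQ with
  | one => exact absurd rfl hpq
  | @cons Q₁ _ x _ h1 h2 h3' =>
    by_cases hxp : p = x
    · subst hxp
      have := h3'.eq_of_loop
      subst this
      rw [Finset.card_insert_of_notMem h2] at h3
      simp at h3
    · obtain ⟨S₁, S₂, y, e, hd', k1, k2, k3⟩ := h3'.split h3'.right_mem hxp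
      have k4 := k3.eq_of_loop
      subst k4
      have hpS1 : p ∉ S₁ := by simpa using hd'
      have hqS1 : q ∉ S₁ := fun h => h2 (by rw [← e]; exact mem_union_left _ h)
      have hdS : Disjoint S S₁ := by
        rw [disjoint_right]
        intro z hz hzS
        rcases hd z (mem_insert_of_mem (by rw [← e]; exact mem_union_left _ hz)) hzS with h | h
        · exact hpS1 (h ▸ hz)
        · exact hqS1 (h ▸ hz)
      refine ⟨p, y, ?_, k2⟩
      have h5 := hS.append h1 k1 hdS
      have h6 : S ∪ insert q Q₁ = S ∪ S₁ := by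
        ext z
        simp only [mem_union, mem_insert, ← e, mem_singleton]
        constructor
        · rintro (h | h | h | h)
          · exact Or.inl h
          · exact Or.inl (h ▸ hS.right_mem)
          · exact Or.inr h
          · exact Or.inl (h ▸ hS.left_mem)
        · tauto
      rw [h6]
      exact h5

theorem SP.symm {R : V → V → Prop} (hR : ∀ x y, R x y → R y x) {S T : Finset V}
    (h : SP R S T) : SP R T S := by
  obtain ⟨L, Z, hZ, hLZ, hS, hT, hc⟩ := h
  refine ⟨(L ∪ Z)ᶜ, Z, hZ, ?_, ?_, ?_, ?_⟩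
  · rw [disjoint_left]
    intro x hx hz
    rw [mem_compl, mem_union] at hx
    exact hx (Or.inr hz)
  · intro x hx
    rw [mem_union, mem_compl, mem_union]
    have := disjoint_right.mp hT hx
    tauto
  · rw [disjoint_left]
    intro x hx hS'
    rw [mem_compl] at hx
    exact hx (hS hS')
  · intro x hx y hxy
    rw [mem_union, mem_compl, mem_union]
    rw [mem_compl, mem_union] at hx
    by_cases hy : y ∈ L
    · have := hc y hy x (hR _ _ hxy)
      rw [mem_union] at this
      exact absurd this hx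
    · tauto

theorem SP.mono {R R' : V → V → Prop} (hR : ∀ x y, R' x y → R x y) {S T : Finset V}
    (h : SP R S T) : SP R' S T := by
  obtain ⟨L, Z, hZ, hLZ, hS, hT, hc⟩ := h
  exact ⟨L, Z, hZ, hLZ, hS, hT, fun x hx y hxy => hc x hx y (hR _ _ hxy)⟩

theorem LO.mono {R R' : V → V → Prop} {S : Finset V} (h : LO R S)
    (hR : ∀ x ∈ S, ∀ y ∈ S, R x y → R' x y) : LO R' S := by
  obtain ⟨h1, h2, a, b, hp, hab⟩ := h
  exact ⟨h1, h2, a, b, hp.mono hR, hR _ hp.right_mem _ hp.left_mem hab⟩

/-- Subgraphs inherit `CS`. -/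
theorem CS.sub {U U' : Finset V} {w w' : V → V → ℕ} (h : CS U w) (hU : U' ⊆ U)
    (hw : ∀ u v, Adj w' u v → Adj w u v) : CS U' w' := by
  intro S T hS hT hd hSL hTL
  exact SP.mono hw (h S T (hS.trans hU) (hT.trans hU) hd (hSL.mono fun x _ y _ => hw x y)
    (hTL.mono fun x _ y _ => hw x y))

end Pool.Agent.Helper18.RL
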