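import Mathlib
import Pool.Agent.Helper18.RL.Base

set_option autoImplicit false
set_option linter.unusedSectionVars false

/-!
PROJECT RL (MP_0c2bb8_co): every class 2 `r`-graph contains two disjoint odd cycles of length at
least five joined by four disjoint paths.  The parts of the proof, as propositions; the doc-strings
contain the proofs.  Library: `Pool.Agent.Helper37.RG3` (`RG`, `bt`, `ct`, `PM`, `rem`, `cr`, `Col`,
`Con`, `nb`, `CN`, `NT`, `C3`, `I4`, `BD`, `Crit`, `Sep`, `del`, `cq`, `XPM`, `TRG`, `TCO`, ...) and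
`Pool.Agent.Helper18.RL.Base` (`Pth`, `LO`, `SP`, `CS`, `RR`, `MT`, `Gad`, `RE`, `RO`).
-/

namespace Pool.Agent.Helper18.RL

open Finset Pool.Agent.Helper37.RG3

/-- **RL-COL** (arithmetic of colourings).  (1) sums: combine `σ : Fin r → ..` and `τ : Fin s → ..`
to a function on `Fin (r + s)` (`Fin.append`).  (2) multiples: induction on `k` with (1); `k = 0`:
no colours, weight `0`.  (3) a perfect matching `m` (an involution) is one colour; take a
multiple. -/
def G_COL : Prop := ∀ (V : Type) [Fintype V] [DecidableEq V],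
  (∀ (w w' : V → V → ℕ) (r s : ℕ), Col w r → Col w' s →
    Col (fun u v => w u v + w' u v) (r + s)) ∧
  (∀ (w : V → V → ℕ) (r k : ℕ), Col w r → Col (fun u v => k * w u v) (k * r)) ∧
  (∀ (m : V → V) (k : ℕ), (∀ u, m (m u) = u) →
    Col (fun u v => if u ≠ v ∧ m u = v then k else 0) k)

/-- **RL-FRC** (Edmonds: every `r`-graph is fractionally class 1; take `G_COL` as hypothesis; use
`Pool.Agent.Helper35.RG3.xpm`, `Pool.Agent.Helper31.RG3.trg`, `Pool.Agent.Helper76.RG3.tco`).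
Induction on `U.card` and then on the number of pairs `(u, v)` with `w u v ≠ 0`.  `r = 0`: `col_zero`,
`k = 1`.  (A) There is a nontrivial tight cut `X` (`X ⊆ U`, odd, `3 ≤ X.card`, `X.card + 3 ≤ U.card`,
`ct w X = r`): by `trg` the contractions `cq w X y₀` on `insert y₀ X` and `cq w (U \ X) x₀` on
`insert x₀ (U \ X)` (`x₀ ∈ X`, `y₀ ∈ U \ X`) are `r`-graphs with fewer vertices; by induction they
have multipliers `k₁`, `k₂`; for `k = k₁ * k₂` both `k *` contractions are colourable (G_COL (2)),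
`cq (k * w) X y₀ = k * cq w X y₀`, and `tco` for `k * w` and `k * r` (an `RG`) gives `Col (k * w)`.
(B) No such `X`.  Let `m` be a perfect matching (`xpm`).  Consider the finitely many pairs (numerator,
denominator) `(w u (m u), 1)`, `u ∈ U`, and `(ct w X - r, cr m X - 1)` for nontrivial odd `X ⊆ U` with
`3 ≤ cr m X` (here `ct w X > r` as `X` is not tight), and let `(j, k)` be one with least ratio
`j / k`, `0 < j, k`.  Put `w' u v = k * w u v - (if u ≠ v ∧ m u = v then j else 0)`; minimality gives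
`j ≤ k * w u (m u)` and `k * (ct w X - r) ≥ j * (cr m X - 1)`, so (`cr m X` is odd by `cr_parity`;
`cr m X = 1` is trivial; `X` of size `1` or `U.card - 1` has `ct w X = r`, `cr m X = 1`)
`RG U w' (k * r - j)`.  If the least ratio is attained by `(w u (m u), 1)` then `w' u (m u) = 0` and
`w'` has smaller support: induction.  If it is attained by `X` then `ct w' X = k * r - j` is a
nontrivial tight cut of `w'`: case (A) (which only uses the induction on `U.card`).  So
`Col (k' * w') (k' * (k * r - j))`, and adding `k' * j` copies of `m` (G_COL (3), (1)) gives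
`Col ((k' * k) * w) (k' * k * r)`. -/
def G_FRC : Prop := ∀ (V : Type) [Fintype V] [DecidableEq V] (U : Finset V) (w : V → V → ℕ)
  (r : ℕ), RG U w r → ∃ k, 0 < k ∧ Col (fun u v => k * w u v) (k * r)

/-- **RL-CLS** (the colour classes of `k * w`; take `G_FRC` as hypothesis).  There is a finite
nonempty family `σ : Fin (k * r)` of perfect matchings of `U` in `w` with
`#{i | σ i u = v} = k * w u v` for all `u ≠ v`, and (double counting over the family, for every
`A B : Finset V` with `A ⊆ U` and `A`, `B` disjoint)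
`∑ i, #{x ∈ A | σ i x ∈ B} = k * bt w A B`.
Proof: `σ` from `Col`; for `u ∈ U` the number of `i` with `σ i u ≠ u` is `k * r` (`col_deg`), so all
`i`; `σ i u = v ≠ u` implies `k * w u v ≠ 0`; for `u ∉ U` all weights vanish, so `σ i u = u`. -/
def G_CLS : Prop := ∀ (V : Type) [Fintype V] [DecidableEq V] (U : Finset V) (w : V → V → ℕ)
  (r : ℕ), RG U w r → ∃ (k : ℕ) (σ : Fin (k * r) → V → V), 0 < k ∧ (∀ i, PM U w (σ i)) ∧
    (∀ u v, u ≠ v → (univ.filter fun i => σ i u = v).card = k * w u v) ∧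
    ∀ A B : Finset V, A ⊆ U → Disjoint A B →
      ∑ i, (A.filter fun x => σ i x ∈ B).card = k * bt w A B

/-- **RL-CUT** (no cut vertex in a minimal violating set).  In the even case add the cuts of
`insert p K` and `insert p L`, in the odd case the cuts of `K` and `L`:
even: `ct (K + p) + ct (L + p) = ct X + r`; odd: `ct K + ct L ≤ ct X + r`; in both cases the left
side is at least `2 * r`.  (Write all cuts by `bt` between the parts `K`, `{p}`, `L`, `Xᶜ`;
`bt w {p} K + bt w {p} L + bt w {p} Xᶜ = r` by `deg` and `irr`.) -/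
def G_CUT : Prop := ∀ (V : Type) [Fintype V] [DecidableEq V] (U X K L : Finset V) (p : V)
  (w : V → V → ℕ) (r : ℕ), RR U w r → X ⊆ U → Odd X.card → X = insert p (K ∪ L) → p ∉ K → p ∉ L →
  Disjoint K L → K.Nonempty → L.Nonempty → (∀ x ∈ K, ∀ y ∈ L, w x y = 0) →
  (∀ Y, Y ⊆ X → Y ≠ X → Odd Y.card → r ≤ ct w Y) → r ≤ ct w X

/-- **RL-STB** (1) a bipartite odd set `X = P ∪ Q` (`P`, `Q` stable and disjoint) has a cut of size at
least `r`: if `P.card < Q.card`, then `r * Q.card = bt w Q P + bt w Q Xᶜ` and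
`bt w P Q ≤ r * P.card`.  (2) an odd set `X ⊆ U` with a stable subset `T ⊆ X`, `X \ T` of two
elements and `3 ≤ T.card` has a cut of size at least `r`:
`bt w T Xᶜ = r * T.card - bt w T (X \ T) ≥ 3 * r - 2 * r`. -/
def G_STB : Prop := ∀ (V : Type) [Fintype V] [DecidableEq V] (U : Finset V)
  (w : V → V → ℕ) (r : ℕ), RR U w r →
  (∀ P Q : Finset V, P ∪ Q ⊆ U → Disjoint P Q → Odd (P ∪ Q).card →
    (∀ x ∈ P, ∀ y ∈ P, w x y = 0) → (∀ x ∈ Q, ∀ y ∈ Q, w x y = 0) → r ≤ ct w (P ∪ Q)) ∧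
  (∀ X T : Finset V, X ⊆ U → T ⊆ X → (X \ T).card = 2 → 3 ≤ T.card →
    (∀ x ∈ T, ∀ y ∈ T, w x y = 0) → r ≤ ct w X)

/-- **RL-OCY** (a set without long odd cycles and triangles is bipartite).  Let `H` be the simple
graph with `H.Adj x y ↔ x ∈ X ∧ y ∈ X ∧ R x y`.  If `H` is 2-colourable, let `P`, `Q` be the colour
classes in `X`.  Otherwise there is a closed walk of odd length
(`SimpleGraph.two_colorable_iff_forall_loop_even`), so an odd cycle
(`Pool.Agent.Helper51.RG.exists_odd_cycle`), `cons h p` with `p` a path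
(`SimpleGraph.Walk.cons_isCycle_iff`); the support of `p` is the vertex set of a `Pth` (induction),
closed by `h`; its size is the length of the cycle, odd, `3` or at least `5`. -/
def G_OCY : Prop := ∀ (V : Type) [Fintype V] [DecidableEq V] (R : V → V → Prop) (X : Finset V),
  (∀ x y, R x y → R y x) → (∀ x, ¬ R x x) → (∀ S, S ⊆ X → ¬ LO R S) →
  (∀ a ∈ X, ∀ b ∈ X, ∀ c ∈ X, ¬ (R a b ∧ R b c ∧ R c a)) →
  ∃ P Q : Finset V, P ∪ Q = X ∧ Disjoint P Q ∧ (∀ x ∈ P, ∀ y ∈ P, ¬ R x y) ∧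
    ∀ x ∈ Q, ∀ y ∈ Q, ¬ R x y

/-- **RL-TRI** (graphs with a triangle, without cut vertices and without long odd cycles are
`K_{1,1,n}` or `K_4`).  Let `D = {a, b, c}`.  For `k ∈ X \ D` let `K ∋ k` be a maximal connected
(`Con R`) subset of `X \ D` (so there are no edges from `K` to `(X \ D) \ K`).
(i) If at most one vertex `p` of `D` has a neighbour in `K`, the partition `K, {p}, X \ K \ {p}`
contradicts `hcut`.  (ii) If `p ≠ q` in `D` have neighbours `k₁ ≠ k₂` in `K`: a path from `k₁` to `k₂`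
in `K` (`Pth.of_con`), extended by `p` and `q`, has vertex set `Q` with `4 ≤ Q.card`; if `Q.card` is
odd it is closed by the edge `q p`: `LO`; if it is even, then with the third vertex `s` of `D`
(edges `q s`, `s p`): `LO`.  (iii) So by (i) and (ii) all edges between `D` and `K` go to one vertex
`k' ∈ K`; if `K ≠ {k'}` the partition `K \ {k'}, {k'}, X \ K` contradicts `hcut`.  Hence `K = {k}`:
`X \ D` is stable and each of its elements has at least two neighbours in `D`.
(iv) `t ≠ t'` in `X \ D`, `t` adjacent to `p, q` and `t'` adjacent to `q, s` (`p, q, s` distinct in `D`):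
`p t q t' s` is a 5-cycle, `LO`.  As `X \ D` has at least two elements, all its elements are adjacent
to the same two elements of `D`; say these are `a, b` (up to the names); `T = X \ {a, b}` is stable
(`c` has no neighbour in `X \ D`).  -/
def G_TRI : Prop := ∀ (V : Type) [Fintype V] [DecidableEq V] (R : V → V → Prop) (X : Finset V)
  (a b c : V), (∀ x y, R x y → R y x) → (∀ x, ¬ R x x) → (∀ S, S ⊆ X → ¬ LO R S) →
  (∀ (p : V) (K L : Finset V), X = insert p (K ∪ L) → p ∉ K → p ∉ L → Disjoint K L →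
    K.Nonempty → L.Nonempty → ∃ x ∈ K, ∃ y ∈ L, R x y) →
  a ∈ X → b ∈ X → c ∈ X → R a b → R b c → R c a → 5 ≤ X.card →
  ∃ T, T ⊆ X ∧ (X \ T).card = 2 ∧ ∀ x ∈ T, ∀ y ∈ T, ¬ R x y

/-- **RL-VIO** (take `G_CUT`, `G_STB`, `G_OCY`, `G_TRI` as hypotheses).  Suppose there is no `LO` set
in `X`; take an odd `Y ⊆ X` with `ct w Y < r` of least size.  `Y.card = 1` is impossible (`ct = r`),
`Y.card = 3` too (hypothesis).  By `G_CUT` (minimality) `Y` has no cut vertex.  If `Y` contains no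
triangle, it is bipartite (`G_OCY`) and `G_STB` (1) gives a contradiction; otherwise `G_TRI` and
`G_STB` (2) do. -/
def G_VIO : Prop := ∀ (V : Type) [Fintype V] [DecidableEq V] (U X : Finset V) (w : V → V → ℕ)
  (r : ℕ), RR U w r → X ⊆ U → Odd X.card → ct w X < r →
  (∀ T, T ⊆ X → T.card = 3 → r ≤ ct w T) → ∃ S, S ⊆ X ∧ LO (Adj w) S

/-- **RL-CRT** (critical graphs are not in `CS`; take `G_VIO` as hypothesis).  Let `m` be a perfect
matching (`Pool.Agent.Helper35.RG3.xpm`) and `X` from `bd`; `w' = rem w m` is `(r-1)`-regular on `U`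
(as in `RG.rem`), `ct w' X < r - 1` (`ct_rem`), and the same for `U \ X` (odd as `U.card` is even;
`ct_compl`, `cr_compl`).  For `T ⊆ U` with three elements `ct w T > r` (`nt`; `10 ≤ U.card`), so
`ct w T ≥ r + 2` (`ct_odd_parity`), and `cr m T ≤ 3` (`cr_le`), so `ct w' T ≥ r - 1`.  By `G_VIO` there
are `LO (Adj w')` sets `S ⊆ X` and `T ⊆ U \ X`; they are `LO (Adj w)`.  If `L, Z` separate them,
`K = L ∩ U` contradicts `i4`: `S \ Z ⊆ K` has at least two elements, `T \ Z ⊆ U \ (K ∪ nb K)` too, and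
`nb K ⊆ Z`. -/
def G_CRT : Prop := ∀ (V : Type) [Fintype V] [DecidableEq V] (U : Finset V) (w : V → V → ℕ)
  (r : ℕ), Crit U w r → ¬ CS U w

/-- **RL-ALT** (alternating path).  Induction on `P₁.card + P₂.card`.  Let `a' = m₁ a ∈ P₁`,
`a' ≠ a`.  If `a' = b` (then `b ∈ P₁`): `Q = {a, b}`.  Otherwise `a' ∈ P₂` (it is different from
`a, b` and lies in `P₁`).  Apply the induction hypothesis to `(P₂, m₂)`, `(P₁ \ {a, a'}, m₁)` and
`a', b`: it gives `Q'` from `a'` to `b` with `Q' ⊆ P₂ ∪ (P₁ \ {a, a'})`, so `a ∉ Q'`; `Q = insert a Q'`. -/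
def G_ALT : Prop := ∀ (V : Type) [Fintype V] [DecidableEq V] (R : V → V → Prop)
  (P₁ P₂ : Finset V) (m₁ m₂ : V → V) (a b : V), (∀ x, ¬ R x x) → MT R P₁ m₁ → MT R P₂ m₂ →
  a ∈ P₁ → a ∉ P₂ → a ≠ b → (∀ v, v ≠ a → v ≠ b → (v ∈ P₁ ↔ v ∈ P₂)) →
  ((b ∈ P₁ ∧ b ∉ P₂) ∨ (b ∉ P₁ ∧ b ∈ P₂)) →
  ∃ Q, Pth R Q a b ∧ Q ⊆ P₁ ∪ P₂ ∧ m₁ a ∈ Q ∧
    ((b ∈ P₁ ∧ Even Q.card) ∨ (b ∈ P₂ ∧ Odd Q.card))

/-- **RL-TCM** (matchings in the side of a tight cut; take `G_CLS` as hypothesis).  `k * r` classes,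
each crosses `Y` an odd number of times (`cr_parity`), the sum is `k * ct w Y = k * r`, so each
crosses exactly once.  A class with `σ i a' = x` exists as `w a' x ≠ 0`; its restriction to
`Y \ {a'}` is a matching of `Y \ {a'}`. -/
def G_TCM : Prop := ∀ (V : Type) [Fintype V] [DecidableEq V] (U Y : Finset V) (w : V → V → ℕ)
  (r : ℕ), RG U w r → Y ⊆ U → Odd Y.card → ct w Y = r → ∀ a' ∈ Y, ∀ x ∉ Y, w a' x ≠ 0 →
  ∃ m, MT (Adj w) (Y \ {a'}) m

/-- **RL-LNT** (tight cut contraction; take `G_TCM`, `G_ALT` as hypotheses).  Let `Y = U \ X` (odd,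
tight, connected by `con_tight`), `w' = cq w X y₀`.  Lifting: an `LO (Adj w')` set `S ⊆ insert y₀ X`
with `y₀ ∉ S` is `LO (Adj w)`.  If `y₀ ∈ S`, `rotate` the cycle to start at `y₀`: `S = insert y₀ S₀`,
`Pth (Adj w') S₀ a b`, `w' y₀ a ≠ 0`, `w' b y₀ ≠ 0`, so there are `a', b' ∈ Y` with `w a a' ≠ 0`,
`w b b' ≠ 0`; there is `Q ⊆ Y`, `Pth (Adj w) Q b' a'`, `Odd Q.card` (`a' = b'`: `{a'}`; otherwise
`G_ALT` for the matchings of `Y \ {b'}` and `Y \ {a'}` from `G_TCM`).  Then `S₀ ∪ Q` is an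
`LO (Adj w)` set.  So for disjoint `S, T` (at most one of them, by `SP.symm` say `S`, contains `y₀`)
let `L, Z` separate the lift `S'` from `T`.
If `Z ∩ Y` is not empty: `L' = L ∩ X`, `Z' = insert y₀ (Z ∩ X)`.  If it is empty, then by
connectedness `Y ⊆ L` or `Y ∩ L = ∅` (`Con.subset_of_avoid` or directly).  `Y ⊆ L`:
`L' = insert y₀ (L ∩ X)`, `Z' = Z ∩ X` (`y₀ ∉ T`).  `Y ∩ L = ∅`: then `y₀ ∉ S` (otherwise `Q` meets
`L ∪ Z`) and `L' = L ∩ X`, `Z' = Z ∩ X`. -/
def G_LNT : Prop := ∀ (V : Type) [Fintype V] [DecidableEq V] (U X : Finset V) (w : V → V → ℕ)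
  (r : ℕ) (y₀ : V), RG U w r → 0 < r → CN U w → CS U w → X ⊆ U → Odd X.card → ct w X = r →
  y₀ ∈ U \ X → CS (insert y₀ X) (cq w X y₀)

/-- **RL-TYE** (types, even side; take `G_CLS` as hypothesis).  `K` even, `Y` odd, both with at least
two elements, `N = {a, b, c}`.  For a class `i` let `T i` be the set of `v ∈ N` with `σ i v ∈ K`; its
size is even (`cr_parity` for `K`: `cr (σ i) K = (T i).card`, since a crossing edge of `K` goes to
`N`), so `0` or `2`.
(1) some class has `T i = ∅`: otherwise `k * ct w K = ∑ (T i).card ≥ 2 * k * r`, but `r < ct w Y`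
(`NT`; `Y.card ≥ 3`) and `ct w K + ct w Y ≤ 3 * r` (degrees of `a, b, c`).  This class gives a
matching of `K`.
(2) some class has `T i = {a, b}`: otherwise `[σ i a ∈ K] + [σ i b ∈ K] = [σ i c ∈ K]` for all `i`, so
`bt w {a} K + bt w {b} K = bt w {c} K`, but `r < ct w (insert c K)`
`= bt w {a} K + bt w {b} K + (r - bt w {c} K)` (`NT`).  This class gives a matching of
`insert a (insert b K)`. -/
def G_TYE : Prop := ∀ (V : Type) [Fintype V] [DecidableEq V] (U K Y : Finset V) (w : V → V → ℕ)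
  (r : ℕ) (a b c : V), RG U w r → 0 < r → NT U w r → Sep U w K Y a b c → Even K.card →
  2 ≤ K.card → 2 ≤ Y.card → (∃ m, MT (Adj w) K m) ∧
    ∃ m, MT (Adj w) (insert a (insert b K)) m ∧ m a ∈ K ∧ m b ∈ K

/-- **RL-TYO** (types, odd side; take `G_CLS` as hypothesis).  `K` odd (so at least three elements),
`Y` even.  `T i` as in `G_TYE`, of odd size.
(1) some class has `T i = {a, b, c}`: otherwise all sizes are `1` and `k * ct w K = k * r`, but
`r < ct w K` (`NT`).
(2) some class has `T i = {a}`: otherwise `[σ i b ∈ K] + [σ i c ∈ K] = 1 + [σ i a ∈ K]` for all `i`, so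
`bt w {b} K + bt w {c} K = r + bt w {a} K`; but `r < ct w (insert a Y)`
`= bt w {b} Y + bt w {c} Y + (r - bt w {a} Y)` (`NT`), and
`r = bt w {v} K + bt w {v} Y + bt w {v} (N \ {v})` for `v = a, b, c`: contradiction. -/
def G_TYO : Prop := ∀ (V : Type) [Fintype V] [DecidableEq V] (U K Y : Finset V) (w : V → V → ℕ)
  (r : ℕ) (a b c : V), RG U w r → 0 < r → NT U w r → Sep U w K Y a b c → Odd K.card →
  2 ≤ K.card → 2 ≤ Y.card →
    (∃ m, MT (Adj w) (insert a (insert b (insert c K))) m ∧ m a ∈ K ∧ m b ∈ K ∧ m c ∈ K) ∧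
    ∃ m, MT (Adj w) (insert a K) m

/-- **RL-LEV** (lifting of a long odd cycle, even gadget; take `G_ALT` as hypothesis).  Let
`N = {a, b, c}`, `R' = RE R K a b c`, new edges: edges of `R'` not in `R` (both ends in `N`).
By `cyc_real_or` the cycle is a cycle of `R` (then `S' = S`) or it is `Pth R' S p q` with last edge
`q p` new, `p, q ∈ N`.  By `Pth.real_or` the path is real or it has a new edge `u v`:
`S = S₁ ∪ S₂`, `Pth R S₁ p u`, `Pth R' S₂ v q`, `u, v ∈ N`.
(A) the path is real, `Pth R S p q`.  `G_ALT` for the matchings of `K ∪ {p, q}` and `K` gives a path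
`Q` from `q` to `p` in `K ∪ {p, q}` with `Even Q.card` and an inner vertex in `K`; `S' = S ∪ Q`
(cut `Q` at `q` and `p`: `Q = {q} ∪ Q₁ ∪ {p}`, i.e. use `Pth.split`/cases to get the inner path);
`S'.card = S.card + Q.card - 2` is odd, at least `5`.
(B) there is a new edge `u v`.  Since `S₁, S₂` are disjoint and `N` has three elements, `u = p`
(`S₁ = {p}`) or `v = q` (`S₂ = {q}`).  In the first case `p` is between `q` and `v`, both edges `q p` and
`p v` are new, `N = {p, q, v}`, and the path `Pth R' S₂ v q` is real (a new edge in it would join `v`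
and `q` and `S₂ = {v, q}`, `S.card = 3`).  `G_ALT` for the matchings of `K ∪ {q, p}` and
`K ∪ {p, v}` gives a path `Q` from `q` to `v` in `K ∪ N` with `Odd Q.card`, through an element of `K`;
`S' = S₂ ∪ Q`, of size `S.card - 1 + Q.card - 2`, odd and at least `5` (`Q.card ≥ 3`).  The second
case is symmetric. -/
def G_LEV : Prop := ∀ (V : Type) [Fintype V] [DecidableEq V] (R : V → V → Prop) (K : Finset V)
  (a b c : V), (∀ x y, R x y → R y x) → (∀ x, ¬ R x x) → a ≠ b → a ≠ c → b ≠ c → a ∉ K → b ∉ K →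
  c ∉ K → (∃ m, MT R K m) → (∃ m, MT R (insert a (insert b K)) m ∧ m a ∈ K ∧ m b ∈ K) →
  (∃ m, MT R (insert a (insert c K)) m ∧ m a ∈ K ∧ m c ∈ K) →
  (∃ m, MT R (insert b (insert c K)) m ∧ m b ∈ K ∧ m c ∈ K) →
  ∀ S, Disjoint S K → LO (RE R K a b c) S → ∃ S', LO R S' ∧ S' ⊆ S ∪ K ∧
    S \ {a, b, c} ⊆ S' ∧ (S' = S ∨ (2 ≤ (S' ∩ {a, b, c}).card ∧ (S' ∩ K).Nonempty))

/-- **RL-ODP** (an odd path through an odd side; take `G_ALT` as hypothesis).  `G_ALT` for the
matchings of `K ∪ {a, b, c}` and `K ∪ {a}` gives a path from `b` to `c` in `K ∪ {a, b, c}` with an even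
number of vertices.  If it avoids `a`: the pair `b, c`.  Otherwise cut it at `a` (`Pth.split`): the
parts `b..a` and `a..c` have together an odd number of vertices (`a` counted twice), so one of
them has an even number, and it avoids the third vertex. -/
def G_ODP : Prop := ∀ (V : Type) [Fintype V] [DecidableEq V] (R : V → V → Prop) (K : Finset V)
  (a b c : V), (∀ x y, R x y → R y x) → (∀ x, ¬ R x x) → a ≠ b → a ≠ c → b ≠ c → a ∉ K → b ∉ K →
  c ∉ K → (∃ m, MT R (insert a (insert b (insert c K))) m) → (∃ m, MT R (insert a K) m) →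
  (∃ Q, Q ⊆ insert b (insert c K) ∧ Pth R Q b c ∧ Even Q.card) ∨
  (∃ Q, Q ⊆ insert a (insert c K) ∧ Pth R Q a c ∧ Even Q.card) ∨
  (∃ Q, Q ⊆ insert a (insert b K) ∧ Pth R Q a b ∧ Even Q.card)

/-- **RL-LOD** (lifting of a long odd cycle, odd gadget; take `G_ALT` as hypothesis).  Let
`N = {a, b, c}`, `R' = RO R K a b c x₀`.
(A) `x₀ ∉ S`.  New edges of the cycle: `b c` only.  By `cyc_real_or` the cycle is real (`S' = S`) or
`Pth R' S p q` with last edge `q p` new, so `{p, q} = {b, c}`; then the path is real (a second new edge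
`b c` would give `S = {b, c}`).  With the path `Q` from `b` to `c` in `K ∪ {b, c}` (hypothesis; it has
an inner vertex in `K`, since `R b c` fails) `S' = S ∪ Q`.
(B) `x₀ ∈ S`.  `rotate`: `S = insert x₀ S₀`, `Pth R' S₀ p q`, `p, q ∈ N` (as `x₀ ∈ K`, the edges at `x₀`
are those to `N`), `p ≠ q` (`S₀.card ≥ 4`), edges of this path: real, or `b c`.
(B1) the path is real: `G_ALT` for the matchings of `K ∪ {q}` and `K ∪ {p}`: a path `Q` from `q` to
`p` in `K ∪ {p, q}` with `Odd Q.card`, `S' = S₀ ∪ Q`, `S'.card = S.card - 1 + Q.card - 2`.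
(B2) the path has a new edge `u v`, `{u, v} = {b, c}`: `S₀ = S₁ ∪ S₂`, `Pth R S₁ p u`,
`Pth R' S₂ v q`.  If `{p, q} = {b, c}` then `S₀ = {b, c}`, too small.  So `a ∈ {p, q}`, and by the
symmetry of reversing, the path is `a .. v, u` with `u ∈ {b, c}` at the end (`S₂ = {u}` or
`S₁ = {u}`) and the part `a .. v` real, `N = {a, u, v}`: the cycle is `x₀, a, .., v, u`.  `G_ALT` for the
matchings `m₃` of `K ∪ N` and of `K ∪ {u}`: a path `Q` from `v` to `a` in `K ∪ N`, `Even Q.card`,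
through `m₃ v ∈ K`, so `Q.card ≥ 4`; `S' = (S₀ \ {u}) ∪ Q`, of size `S.card - 2 + Q.card - 2`. -/
def G_LOD : Prop := ∀ (V : Type) [Fintype V] [DecidableEq V] (R : V → V → Prop) (K : Finset V)
  (a b c x₀ : V), (∀ x y, R x y → R y x) → (∀ x, ¬ R x x) → a ≠ b → a ≠ c → b ≠ c → a ∉ K →
  b ∉ K → c ∉ K → x₀ ∈ K →
  (∃ m, MT R (insert a (insert b (insert c K))) m ∧ m a ∈ K ∧ m b ∈ K ∧ m c ∈ K) →
  (∃ m, MT R (insert a K) m) → (∃ m, MT R (insert b K) m) → (∃ m, MT R (insert c K) m) →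
  (∃ Q, Q ⊆ insert b (insert c K) ∧ Pth R Q b c ∧ Even Q.card) →
  ∀ S, Disjoint (S \ {x₀}) K → LO (RO R K a b c x₀) S → ∃ S', LO R S' ∧
    S' ⊆ (S \ {x₀}) ∪ K ∧ S \ {a, b, c, x₀} ⊆ S' ∧
    ((S' = S ∧ x₀ ∉ S) ∨ (2 ≤ (S' ∩ {a, b, c}).card ∧ (S' ∩ K).Nonempty))

/-- **RL-SPG** (separations pass to the gadget graph).  Let `L, Z` separate `S'` from `T` in `R`.
Put `N = {a, b, c}`, `A_R = N \ (L ∪ Z)`, `A_L = N ∩ L`.  `hP` says: if `K ∩ Z = ∅` then
(`K` meets `L` ⇒ `A_R = ∅`) and (`K` not contained in `L` ⇒ `A_L = ∅`).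
Case `S' = S`, `x₀ ∉ S`.  `A_R = ∅`: `L' = insert x₀ (L \ K)`, `Z' = Z \ K`.  `A_L = ∅` (and
`A_R ≠ ∅`): `L' = L \ K`, `Z' = Z \ K`.  Both nonempty: `K ∩ Z ≠ ∅` (by `hP`, as `x₀ ∈ K`) and one of
them has one element; `A_R = {v}`: `L' = insert x₀ (L \ K)`, `Z' = insert v (Z \ K)`; `A_L = {v}`:
`L' = (L \ K) \ {v}`, `Z' = insert v (Z \ K)`.
Case `2 ≤ (S' ∩ N).card`, `S' ∩ K ≠ ∅`: `A_R` has at most one element.  `A_R = ∅`:
`L' = insert x₀ (L \ K)`, `Z' = Z \ K`.  `A_R = {v}`: `K ∩ Z ≠ ∅` (otherwise `S' ∩ K` meets `L`, and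
`A_R = ∅` by `hP`); `L' = insert x₀ (L \ K)`, `Z' = insert v (Z \ K)`. -/
def G_SPG : Prop := ∀ (V : Type) [Fintype V] [DecidableEq V] (R R' : V → V → Prop)
  (K S T S' : Finset V) (a b c x₀ : V), Gad R R' K a b c x₀ → a ∉ K → b ∉ K → c ∉ K → x₀ ∈ K →
  (∀ L Z : Finset V, Disjoint L Z → Disjoint K Z → (∀ x ∈ L, ∀ y, R x y → y ∈ L ∪ Z) →
    ((K ∩ L).Nonempty → ∀ v ∈ ({a, b, c} : Finset V), v ∈ L ∪ Z) ∧
    ((K \ L).Nonempty → ∀ v ∈ ({a, b, c} : Finset V), v ∉ L)) →
  Disjoint T K → Disjoint (S \ {x₀}) K → S \ {a, b, c, x₀} ⊆ S' →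
  ((S' = S ∧ x₀ ∉ S) ∨ (2 ≤ (S' ∩ {a, b, c}).card ∧ (S' ∩ K).Nonempty)) →
  SP R S' T → SP R' S T

/-- **RL-REA** (a cycle of the gadget graph with at most one of `a, b, c` is old).  Each of the two
edges of the cycle at `x₀` would go to one of `a, b, c` (`rotate`; the other ends are distinct), so
`x₀ ∉ T`; an edge which is not in `R` has both ends in `{a, b, c}`, they are distinct (`hirr'`): by
`cyc_real_or` there is none. -/
def G_REA : Prop := ∀ (V : Type) [Fintype V] [DecidableEq V] (R R' : V → V → Prop)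
  (K T : Finset V) (a b c x₀ : V), Gad R R' K a b c x₀ → x₀ ∈ K → (∀ x y, R' x y → R' y x) →
  (∀ x, ¬ R' x x) → LO R' T → (T ∩ {a, b, c}).card ≤ 1 → x₀ ∉ T ∧ LO R T

/-- **RL-CLP** (closure property of the replaced side).  `K₁ = K ∩ L` resp. `K₁ = K \ L`: there are no
edges between `K ∩ L` and `K \ L` (closedness of `L`, `K ∩ Z = ∅`), so `nb (Adj w) K₁ ⊆ {a, b, c}`
(`nb (Adj w) K = {a, b, c}`), and `C3` gives equality (`K₁ ∪ nb K₁ ≠ U` since `K ∪ {a,b,c} ≠ U`).
So each `v ∈ {a, b, c}` has a neighbour in `K ∩ L` (then `v ∈ L ∪ Z`) resp. in `K \ L` (then `v ∉ L`,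
otherwise this neighbour would be in `L ∪ Z`). -/
def G_CLP : Prop := ∀ (V : Type) [Fintype V] [DecidableEq V] (U K L Z : Finset V)
  (w : V → V → ℕ) (r : ℕ) (a b c : V), RG U w r → C3 U w → K ⊆ U →
  nb (Adj w) K = {a, b, c} → K ∪ {a, b, c} ≠ U → Disjoint L Z → Disjoint K Z →
  (∀ x ∈ L, ∀ y, Adj w x y → y ∈ L ∪ Z) →
  ((K ∩ L).Nonempty → ∀ v ∈ ({a, b, c} : Finset V), v ∈ L ∪ Z) ∧
  ((K \ L).Nonempty → ∀ v ∈ ({a, b, c} : Finset V), v ∉ L)

/-- **RL-MNG** (Menger and the two notions of cycle).  Let `G` be a simple graph without two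
vertex-disjoint odd cycles of length `≥ 5` joined by four disjoint walks.  Let `S`, `T` be disjoint
`LO G.Adj` sets.  Every `LO` set is the support of a cycle (`Pth` gives a path `p` of length
`S.card - 1` with support `S`, by induction, and `Walk.cons_isCycle_iff`).  If `S` and `T` cannot be
separated by three vertices, Menger's theorem gives four disjoint paths: apply
`Pool.Agent.Helper41.PP.link` to the graph on `V ⊕ Fin 4` in which the four new vertices `A` are
joined to all vertices of `S`, `U = univ`, `B = T`, and drop the first vertex.  Its hypothesis: for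
`Y` with fewer than four elements there is a walk from `A` to `T` avoiding `Y`; otherwise let `L` be
the set of all `v` reachable in `G` from `S \ Y` outside `Y` (`Y` restricted to `V`): `L, Y` separate `S` from
`T`, since some new vertex is not in `Y`. -/
def G_MNG : Prop := ∀ (V : Type) [Fintype V] [DecidableEq V] (G : SimpleGraph V),
  (¬ ∃ (a b : V) (p : G.Walk a a) (q : G.Walk b b),
      p.IsCycle ∧ q.IsCycle ∧ Odd p.length ∧ Odd q.length ∧ 5 ≤ p.length ∧ 5 ≤ q.length ∧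
      (∀ x, x ∈ p.support → x ∉ q.support) ∧
      ∃ (x y : Fin 4 → V) (s : ∀ i, G.Walk (x i) (y i)),
        (∀ i, x i ∈ p.support ∧ y i ∈ q.support) ∧
        ∀ i j, i ≠ j → ∀ z, z ∈ (s i).support → z ∉ (s j).support) →
  ∀ S T : Finset V, Disjoint S T → LO G.Adj S → LO G.Adj T → SP G.Adj S T

end Pool.Agent.Helper18.RL
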