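import Mathlib
import Pool.Agent.Helper18.RL.Goals
import Pool.Agent.Helper77.RG3.GEV
import Pool.Agent.Helper54.RG3.GOD
import Pool.Agent.Helper31.RG3.TRG
import Pool.Agent.Helper76.RG3.TCO
import Pool.Agent.Helper35.RG3.XPM
import Pool.Agent.Helper39.RG3.CV1

set_option autoImplicit false
set_option linter.unusedSectionVars false

/-!
Reduction of an uncolourable `r`-graph in `CS` to a critical one in `CS`.
-/

namespace Pool.Agent.Helper18.RL

open Finset Pool.Agent.Helper37.RG3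

variable {V : Type} [Fintype V] [DecidableEq V] {U : Finset V} {w : V → V → ℕ} {r : ℕ}

/-- one reduction step inside the class `CS` -/
def Stc (U : Finset V) (_w : V → V → ℕ) (r : ℕ) : Prop :=
  ∃ (U' : Finset V) (w' : V → V → ℕ) (r' : ℕ), r' ≤ r ∧ U'.card + r' < U.card + r ∧
    RG U' w' r' ∧ ¬ Col w' r' ∧ CS U' w'

theorem cs_cn (h : RG U w r) (nc : ¬ Col w r) (cs : CS U w) (hcn : ¬ CN U w) : Stc U w r := by
  unfold CN at hcn
  push Not at hcn
  obtain ⟨K, hK, hne, hKU, hnb⟩ := hcn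
  have hn1 : ∀ u ∈ K, ∀ v, w u v ≠ 0 → v ∈ K := by
    intro u hu v huv
    by_contra hv
    have : v ∈ nb (Adj w) K := mem_nb.mpr ⟨hv, u, hu, huv⟩
    rw [hnb] at this
    simp at this
  have hn2 : ∀ u ∈ U \ K, ∀ v, w u v ≠ 0 → v ∈ U \ K := by
    intro u hu v huv
    rw [mem_sdiff] at hu ⊢
    refine ⟨h.supp' huv, fun hv => hu.2 (hn1 v hv u ?_)⟩
    rwa [h.symm]
  have h1 := rg_ins h hK hn1
  have h2 := rg_ins h (Finset.sdiff_subset (s := U) (t := K)) hn2
  have hlt1 : K.card < U.card := Finset.card_lt_card ((Finset.ssubset_iff_subset_ne).mpr ⟨hK, hKU⟩)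
  have hlt2 : (U \ K).card < U.card := by
    rw [Finset.card_sdiff_of_subset hK]
    have := Finset.card_pos.mpr hne
    omega
  have key : ∀ L : Finset V, L ⊆ U → CS L (ins w L) := by
    intro L hL
    refine cs.sub hL fun u v huv => ?_
    have := ins_le w L u v
    unfold Adj at *
    omega
  by_cases c1 : Col (ins w K) r
  · by_cases c2 : Col (ins w (U \ K)) r
    · exfalso
      obtain ⟨σ, hσ, hσ2⟩ := c1
      obtain ⟨τ, hτ, hτ2⟩ := c2
      have hs := splice σ τ hσ hτ hσ2 hτ2 (by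
        intro i u
        by_cases hu : u ∈ K
        · right
          refine col_fix hτ2 (fun v => ?_) i
          unfold ins
          rw [if_neg]
          rintro ⟨h1, -⟩
          rw [mem_sdiff] at h1
          exact h1.2 hu
        · left
          refine col_fix hσ2 (fun v => ?_) i
          unfold ins
          rw [if_neg]
          rintro ⟨h1, -⟩
          exact hu h1)
      apply nc
      have he : (fun u v => ins w K u v + ins w (U \ K) u v) = w := by
        funext u v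
        unfold ins
        by_cases hu : u ∈ K
        · rw [if_neg (c := u ∈ U \ K ∧ v ∈ U \ K) (by rw [mem_sdiff]; tauto), add_zero]
          by_cases hv : v ∈ K
          · rw [if_pos ⟨hu, hv⟩]
          · rw [if_neg (by tauto)]
            by_contra hne'
            exact hv (hn1 u hu v fun hh => hne' hh.symm)
        · rw [if_neg (by tauto), zero_add]
          by_cases huU : u ∈ U
          · by_cases hv : v ∈ U \ K
            · rw [if_pos ⟨by rw [mem_sdiff]; exact ⟨huU, hu⟩, hv⟩]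
            · rw [if_neg (by tauto)]
              by_contra hne'
              exact hv (hn2 u (by rw [mem_sdiff]; exact ⟨huU, hu⟩) v fun hh => hne' hh.symm)
          · rw [if_neg (by rw [mem_sdiff]; tauto), h.zero_left huU]
      rw [he] at hs
      exact hs
    · exact ⟨U \ K, ins w (U \ K), r, le_rfl, by omega, h2, c2, key _ Finset.sdiff_subset⟩
  · exact ⟨K, ins w K, r, le_rfl, by omega, h1, c1, key _ hK⟩

theorem cs_nt (hL : G_LNT) (h : RG U w r) (hr : 0 < r) (nc : ¬ Col w r) (cs : CS U w)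
    (hcn : CN U w) (hnt : ¬ NT U w r) : Stc U w r := by
  unfold NT at hnt
  push Not at hnt
  obtain ⟨X, hX, ho, h3, h4, h5⟩ := hnt
  have hct : ct w X = r := le_antisymm h5 (h.cut X hX ho)
  have hUe := h.even_card hr
  have hYcard : (U \ X).card = U.card - X.card := Finset.card_sdiff_of_subset hX
  have hYo : Odd (U \ X).card := by
    obtain ⟨k, hk⟩ := ho
    obtain ⟨l, hl⟩ := hUe
    exact ⟨l - k - 1, by omega⟩
  have hctY : ct w (U \ X) = r := by rw [h.ct_compl hX, hct]
  obtain ⟨x₀, hx₀⟩ : X.Nonempty := Finset.card_pos.mp ho.pos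
  obtain ⟨y₀, hy₀⟩ : (U \ X).Nonempty := Finset.card_pos.mp hYo.pos
  have hy1 : y₀ ∉ X := (mem_sdiff.mp hy₀).2
  have hx1 : x₀ ∉ U \ X := fun hh => (mem_sdiff.mp hh).2 hx₀
  have e : U \ (U \ X) = X := Finset.sdiff_sdiff_eq_self hX
  by_cases c1 : Col (cq w X y₀) r
  · have c2 : ¬ Col (cq w (U \ X) x₀) r := fun c2 =>
      nc (Pool.Agent.Helper76.RG3.tco V U X w r x₀ y₀ h hX hct hx₀ hy₀ c1 c2)
    refine ⟨insert x₀ (U \ X), cq w (U \ X) x₀, r, le_rfl, ?_,
      Pool.Agent.Helper31.RG3.trg V U (U \ X) w r x₀ h Finset.sdiff_subset hYo hctY hx1, c2,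
      hL V U (U \ X) w r x₀ h hr hcn cs Finset.sdiff_subset hYo hctY (by rw [e]; exact hx₀)⟩
    rw [Finset.card_insert_of_notMem hx1]
    omega
  · refine ⟨insert y₀ X, cq w X y₀, r, le_rfl, ?_,
      Pool.Agent.Helper31.RG3.trg V U X w r y₀ h hX ho hct hy1, c1,
      hL V U X w r y₀ h hr hcn cs hX ho hct hy₀⟩
    rw [Finset.card_insert_of_notMem hy1]
    omega

theorem cs_bd (h : RG U w r) (hr : 0 < r) (nc : ¬ Col w r) (cs : CS U w)
    (hbd : ¬ BD U w r) : Stc U w r := by
  unfold BD at hbd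
  push Not at hbd
  obtain ⟨m, hm, hX⟩ := hbd
  obtain ⟨s, rfl⟩ : ∃ s, r = s + 1 := ⟨r - 1, by omega⟩
  refine ⟨U, rem w m, s, by omega, by omega, ?_, ?_, ?_⟩
  · refine RG.rem h hm fun X hXU ho => ?_
    have := hX X hXU ho
    omega
  · intro hc
    exact nc (Col.of_rem hm hc)
  · refine cs.sub (Finset.Subset.refl U) fun u v huv => ?_
    unfold Adj at *
    rw [rem_add hm u v]
    omega


/-! ### separations by three vertices -/

theorem sep_swap12 {K Y : Finset V} {a b c : V} (h : Sep U w K Y a b c) : Sep U w K Y b a c :=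
  ⟨h.ab.symm, h.bc, h.ac, by rw [h.un]; ext; simp; tauto, h.xy, h.bX, h.aX, h.cX, h.bY, h.aY, h.cY,
    h.zero⟩

theorem sep_swap23 {K Y : Finset V} {a b c : V} (h : Sep U w K Y a b c) : Sep U w K Y a c b :=
  ⟨h.ac, h.ab, h.bc.symm, by rw [h.un]; ext; simp; tauto, h.xy, h.aX, h.cX, h.bX, h.aY, h.cY, h.bY,
    h.zero⟩

/-- The common part of the two gadget steps. -/
theorem gad_core (hSPG : G_SPG) (hREA : G_REA) (hCLP : G_CLP)
    (h : RG U w r) (h3 : C3 U w) (cs : CS U w)
    {K Y : Finset V} {a b c x₀ : V} (hsep : Sep U w K Y a b c) (hKU : K ⊆ U) (hYne : Y.Nonempty)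
    (hnb : nb (Adj w) K = {a, b, c}) (hx₀ : x₀ ∈ K) {R' : V → V → Prop}
    (hsymm : ∀ x y, R' x y → R' y x) (hirr : ∀ x, ¬ R' x x) (hgad : Gad (Adj w) R' K a b c x₀)
    {U' : Finset V} (hU' : ∀ u ∈ U', u = x₀ ∨ (u ∈ U ∧ u ∉ K))
    (hlift : ∀ S, Disjoint (S \ {x₀}) K → LO R' S → ∃ S', LO (Adj w) S' ∧
      S' ⊆ (S \ {x₀}) ∪ K ∧ S \ {a, b, c, x₀} ⊆ S' ∧
      ((S' = S ∧ x₀ ∉ S) ∨ (2 ≤ (S' ∩ {a, b, c}).card ∧ (S' ∩ K).Nonempty))) :
    ∀ S T, S ⊆ U' → T ⊆ U' → Disjoint S T → LO R' S → LO R' T → SP R' S T := by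
  have main : ∀ S T, S ⊆ U' → T ⊆ U' → Disjoint S T → LO R' S → LO R' T →
      (T ∩ {a, b, c}).card ≤ 1 → SP R' S T := by
    intro S T hS hT hd hSL hTL hT1
    obtain ⟨hxT, hTR⟩ := hREA V (Adj w) R' K T a b c x₀ hgad hx₀ hsymm hirr hTL hT1
    have hSK : Disjoint (S \ {x₀}) K := by
      rw [disjoint_left]
      intro x hx hxK
      rw [mem_sdiff, mem_singleton] at hx
      rcases hU' x (hS hx.1) with h1 | h1
      · exact hx.2 h1
      · exact h1.2 hxK
    have hTK : Disjoint T K := by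
      rw [disjoint_left]
      intro x hx hxK
      rcases hU' x (hT hx) with h1 | h1
      · exact hxT (h1 ▸ hx)
      · exact h1.2 hxK
    obtain ⟨S', k1, k2, k3, k4⟩ := hlift S hSK hSL
    have hS'U : S' ⊆ U := by
      intro x hx
      rcases mem_union.mp (k2 hx) with h1 | h1
      · rw [mem_sdiff, mem_singleton] at h1
        rcases hU' x (hS h1.1) with h2 | h2
        · exact absurd h2 h1.2
        · exact h2.1
      · exact hKU h1
    have hTU : T ⊆ U := by
      intro x hx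
      rcases hU' x (hT hx) with h2 | h2
      · exact absurd (h2 ▸ hx) hxT
      · exact h2.1
    have hd' : Disjoint S' T := by
      rw [disjoint_left]
      intro x hx hxT
      rcases mem_union.mp (k2 hx) with h1 | h1
      · rw [mem_sdiff] at h1
        exact disjoint_left.mp hd h1.1 hxT
      · exact disjoint_left.mp hTK hxT h1
    have hsp := cs S' T hS'U hTU hd' k1 hTR
    have hne : K ∪ {a, b, c} ≠ U := by
      intro he
      obtain ⟨y, hy⟩ := hYne
      have hyU : y ∈ U := by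
        rw [hsep.un]
        exact mem_union_left _ (mem_union_right _ hy)
      rw [← he, mem_union] at hyU
      rcases hyU with h1 | h1
      · exact disjoint_left.mp hsep.xy h1 hy
      · simp only [mem_insert, mem_singleton] at h1
        rcases h1 with rfl | rfl | rfl
        · exact hsep.aY hy
        · exact hsep.bY hy
        · exact hsep.cY hy
    exact hSPG V (Adj w) R' K S T S' a b c x₀ hgad hsep.aX hsep.bX hsep.cX hx₀
      (fun L Z hLZ hKZ hc => hCLP V U K L Z w r a b c h h3 hKU hnb hne hLZ hKZ hc) hTK hSK k3 k4 hsp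
  intro S T hS hT hd hSL hTL
  by_cases h1 : (T ∩ {a, b, c}).card ≤ 1
  · exact main S T hS hT hd hSL hTL h1
  · refine SP.symm hsymm (main T S hT hS hd.symm hTL hSL ?_)
    have h2 : Disjoint (S ∩ {a, b, c}) (T ∩ {a, b, c}) :=
      disjoint_of_subset_left inter_subset_left (disjoint_of_subset_right inter_subset_left hd)
    have h3 := Finset.card_union_of_disjoint h2
    have h4 : (S ∩ {a, b, c} ∪ T ∩ {a, b, c}).card ≤ ({a, b, c} : Finset V).card :=
      card_le_card (union_subset inter_subset_right inter_subset_right)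
    have h5 : ({a, b, c} : Finset V).card ≤ 3 := Finset.card_le_three
    omega

theorem gad_even (hTYE : G_TYE) (hLEV : G_LEV) (hSPG : G_SPG) (hREA : G_REA)
    (hCLP : G_CLP) (h : RG U w r) (hr : 0 < r) (nt : NT U w r) (h3 : C3 U w) (cs : CS U w)
    {K Y : Finset V} {a b c : V} (hsep : Sep U w K Y a b c) (hKU : K ⊆ U) (hKe : Even K.card)
    (hK2 : 2 ≤ K.card) (hY2 : 2 ≤ Y.card) (hnb : nb (Adj w) K = {a, b, c}) (n₁ n₂ n₃ : ℕ)
    (h' : RG (U \ K) (fun u v => del w K u v + (edg a b n₁ u v + edg a c n₂ u v +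
      edg b c n₃ u v)) r) :
    CS (U \ K) (fun u v => del w K u v + (edg a b n₁ u v + edg a c n₂ u v + edg b c n₃ u v)) := by
  obtain ⟨x₀, hx₀⟩ : K.Nonempty := Finset.card_pos.mp (by omega)
  have hYne : Y.Nonempty := Finset.card_pos.mp (by omega)
  set w' : V → V → ℕ := fun u v => del w K u v + (edg a b n₁ u v + edg a c n₂ u v +
      edg b c n₃ u v) with hw'
  have hRE : ∀ x y, Adj w' x y → RE (Adj w) K a b c x y := by
    intro x y hxy
    unfold Adj at hxy
    rw [hw'] at hxy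
    unfold RE
    by_cases k0 : del w K x y = 0
    · right
      by_cases k1 : edg a b n₁ x y = 0
      · by_cases k2 : edg a c n₂ x y = 0
        · have k3 : edg b c n₃ x y ≠ 0 := by
            intro k3
            apply hxy
            beta_reduce
            rw [k0, k1, k2, k3]
          rcases edg_ne k3 with ⟨rfl, rfl⟩ | ⟨rfl, rfl⟩
          · exact ⟨hsep.bc, by simp, by simp⟩
          · exact ⟨hsep.bc.symm, by simp, by simp⟩
        · rcases edg_ne k2 with ⟨rfl, rfl⟩ | ⟨rfl, rfl⟩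
          · exact ⟨hsep.ac, by simp, by simp⟩
          · exact ⟨hsep.ac.symm, by simp, by simp⟩
      · rcases edg_ne k1 with ⟨rfl, rfl⟩ | ⟨rfl, rfl⟩
        · exact ⟨hsep.ab, by simp, by simp⟩
        · exact ⟨hsep.ab.symm, by simp, by simp⟩
    · left
      obtain ⟨d1, d2, d3⟩ := del_ne k0
      exact ⟨d3, d1, d2⟩
  have hsymm := adj_symm h'
  have hirr : ∀ x, ¬ Adj w' x x := fun x hx => hx (h'.irr x)
  have hRs := adj_symm h
  have hRi : ∀ x, ¬ Adj w x x := fun x hx => hx (h.irr x)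
  obtain ⟨m0, m1⟩ := hTYE V U K Y w r a b c h hr nt hsep hKe hK2 hY2
  obtain ⟨-, m2⟩ := hTYE V U K Y w r a c b h hr nt (sep_swap23 hsep) hKe hK2 hY2
  obtain ⟨-, m3⟩ := hTYE V U K Y w r b c a h hr nt (sep_swap23 (sep_swap12 hsep)) hKe hK2 hY2
  refine gad_core hSPG hREA hCLP h h3 cs hsep hKU hYne hnb hx₀ hsymm hirr ?_ (U' := U \ K) ?_ ?_
  · intro x y hxy
    rcases hRE x y hxy with h1 | ⟨-, h1, h2⟩
    · exact Or.inl h1
    · right
      simp only [mem_insert, mem_singleton] at h1 h2 ⊢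
      tauto
  · intro u hu
    rw [mem_sdiff] at hu
    exact Or.inr hu
  · intro S hSK hSL
    have hx : x₀ ∉ S := by
      intro hxS
      obtain ⟨ho, h5, p, q, hp, hqp⟩ := hSL
      obtain ⟨y, hp', hy⟩ := rotate hp hqp hxS
      rcases hRE _ _ hy with h1 | ⟨-, -, h1⟩
      · exact h1.2.2 hx₀
      · simp only [mem_insert, mem_singleton] at h1
        rcases h1 with rfl | rfl | rfl
        · exact hsep.aX hx₀
        · exact hsep.bX hx₀
        · exact hsep.cX hx₀
    have he : S \ {x₀} = S := by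
      rw [sdiff_singleton_eq_erase, erase_eq_of_notMem hx]
    rw [he] at hSK ⊢
    obtain ⟨S', k1, k2, k3, k4⟩ := hLEV V (Adj w) K a b c hRs hRi hsep.ab hsep.ac hsep.bc hsep.aX
      hsep.bX hsep.cX m0 m1 m2 m3 S hSK (hSL.mono fun x _ y _ => hRE x y)
    refine ⟨S', k1, k2, ?_, ?_⟩
    · intro x hx'
      apply k3
      simp only [mem_sdiff, mem_insert, mem_singleton] at hx' ⊢
      tauto
    · rcases k4 with h1 | h1
      · exact Or.inl ⟨h1, hx⟩
      · exact Or.inr h1

theorem gad_odd (hTYO : G_TYO) (hLOD : G_LOD) (hSPG : G_SPG) (hREA : G_REA)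
    (hCLP : G_CLP) (h : RG U w r) (hr : 0 < r) (nt : NT U w r) (h3 : C3 U w) (cs : CS U w)
    {K Y : Finset V} {a b c x₀ : V} (hsep : Sep U w K Y a b c) (hKU : K ⊆ U) (hKo : Odd K.card)
    (hK2 : 2 ≤ K.card) (hY2 : 2 ≤ Y.card) (hnb : nb (Adj w) K = {a, b, c}) (hx₀ : x₀ ∈ K)
    (hQ : ∃ Q, Q ⊆ insert b (insert c K) ∧ Pth (Adj w) Q b c ∧ Even Q.card) (n₁ n₂ n₃ n₄ : ℕ)
    (h' : RG (insert x₀ (U \ K)) (fun u v => del w K u v +
      (edg x₀ a n₁ u v + edg x₀ b n₂ u v + edg x₀ c n₃ u v + edg b c n₄ u v)) r) :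
    CS (insert x₀ (U \ K)) (fun u v => del w K u v +
      (edg x₀ a n₁ u v + edg x₀ b n₂ u v + edg x₀ c n₃ u v + edg b c n₄ u v)) := by
  have hYne : Y.Nonempty := Finset.card_pos.mp (by omega)
  set w' : V → V → ℕ := fun u v => del w K u v +
      (edg x₀ a n₁ u v + edg x₀ b n₂ u v + edg x₀ c n₃ u v + edg b c n₄ u v) with hw'
  have hRO : ∀ x y, Adj w' x y → RO (Adj w) K a b c x₀ x y := by
    intro x y hxy
    unfold Adj at hxy
    rw [hw'] at hxy
    unfold RO
    by_cases k0 : del w K x y = 0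
    · right
      by_cases k1 : edg x₀ a n₁ x y = 0
      · by_cases k2 : edg x₀ b n₂ x y = 0
        · by_cases k3 : edg x₀ c n₃ x y = 0
          · have k4 : edg b c n₄ x y ≠ 0 := by
              intro k4
              apply hxy
              beta_reduce
              rw [k0, k1, k2, k3, k4]
            rcases edg_ne k4 with h1 | h1
            · exact Or.inr (Or.inr (Or.inl h1))
            · exact Or.inr (Or.inr (Or.inr h1))
          · rcases edg_ne k3 with ⟨rfl, rfl⟩ | ⟨rfl, rfl⟩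
            · exact Or.inl ⟨rfl, by simp⟩
            · exact Or.inr (Or.inl ⟨rfl, by simp⟩)
        · rcases edg_ne k2 with ⟨rfl, rfl⟩ | ⟨rfl, rfl⟩
          · exact Or.inl ⟨rfl, by simp⟩
          · exact Or.inr (Or.inl ⟨rfl, by simp⟩)
      · rcases edg_ne k1 with ⟨rfl, rfl⟩ | ⟨rfl, rfl⟩
        · exact Or.inl ⟨rfl, by simp⟩
        · exact Or.inr (Or.inl ⟨rfl, by simp⟩)
    · left
      obtain ⟨d1, d2, d3⟩ := del_ne k0
      exact ⟨d3, d1, d2⟩
  have hsymm := adj_symm h'
  have hirr : ∀ x, ¬ Adj w' x x := fun x hx => hx (h'.irr x)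
  have hRs := adj_symm h
  have hRi : ∀ x, ¬ Adj w x x := fun x hx => hx (h.irr x)
  obtain ⟨m3, m1⟩ := hTYO V U K Y w r a b c h hr nt hsep hKo hK2 hY2
  obtain ⟨-, m2⟩ := hTYO V U K Y w r b a c h hr nt (sep_swap12 hsep) hKo hK2 hY2
  obtain ⟨-, m4⟩ := hTYO V U K Y w r c a b h hr nt (sep_swap12 (sep_swap23 hsep)) hKo hK2 hY2
  refine gad_core hSPG hREA hCLP h h3 cs hsep hKU hYne hnb hx₀ hsymm hirr ?_
    (U' := insert x₀ (U \ K)) ?_ ?_
  · intro x y hxy
    rcases hRO x y hxy with h1 | ⟨rfl, h2⟩ | ⟨rfl, h2⟩ | ⟨rfl, rfl⟩ | ⟨rfl, rfl⟩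
    · exact Or.inl h1
    · right
      simp only [mem_insert, mem_singleton] at h2 ⊢
      tauto
    · right
      simp only [mem_insert, mem_singleton] at h2 ⊢
      tauto
    · right; simp
    · right; simp
  · intro u hu
    rw [mem_insert, mem_sdiff] at hu
    exact hu
  · intro S hSK hSL
    exact hLOD V (Adj w) K a b c x₀ hRs hRi hsep.ab hsep.ac hsep.bc hsep.aX hsep.bX hsep.cX hx₀ m3
      m1 m2 m4 hQ S hSK (hSL.mono fun x _ y _ => hRO x y)

end Pool.Agent.Helper18.RL
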