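import Mathlib
import Pool.Agent.Helper18.RL.Red

set_option autoImplicit false
set_option linter.unusedSectionVars false

/-!
Every `r`-graph in `CS` is class 1.
-/

namespace Pool.Agent.Helper18.RL

open Finset Pool.Agent.Helper37.RG3

variable {V : Type} [Fintype V] [DecidableEq V] {U : Finset V} {w : V → V → ℕ} {r : ℕ}

/-- the goals used for the gadgets -/
structure Gls : Prop where
  lnt : G_LNT
  tye : G_TYE
  tyo : G_TYO
  lev : G_LEV
  odp : G_ODP
  lod : G_LOD
  spg : G_SPG
  rea : G_REA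
  clp : G_CLP

theorem cs_gad (g : Gls) (h : RG U w r) (hr : 0 < r) (nt : NT U w r) (h3 : C3 U w)
    (cs : CS U w) {K : Finset V} (hK : K ⊆ U) (hK2 : 2 ≤ K.card)
    (hN3 : (nb (Adj w) K).card = 3) (hY2 : 2 ≤ (U \ (K ∪ nb (Adj w) K)).card)
    (nc : ¬ Col (del w K) r) : Stc U w r := by
  set N := nb (Adj w) K with hN
  set Y := U \ (K ∪ N) with hYd
  have hNU : N ⊆ U := nb_sub h K
  have hKN : Disjoint K N := nb_disj _ K
  have hYU : Y ⊆ U := Finset.sdiff_subset
  have hYKN : Disjoint Y (K ∪ N) := Finset.sdiff_disjoint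
  have hYK : Disjoint Y K := Finset.disjoint_of_subset_right Finset.subset_union_left hYKN
  have hYN : Disjoint Y N := Finset.disjoint_of_subset_right Finset.subset_union_right hYKN
  obtain ⟨a, b, c, hab, hac, hbc, hNe⟩ := Finset.card_eq_three.mp hN3
  have haN : a ∈ N := by rw [hNe]; simp
  have hbN : b ∈ N := by rw [hNe]; simp
  have hcN : c ∈ N := by rw [hNe]; simp
  have hsep : Sep U w K Y a b c := by
    refine ⟨hab, hac, hbc, ?_, hYK.symm, Finset.disjoint_right.mp hKN haN,
      Finset.disjoint_right.mp hKN hbN, Finset.disjoint_right.mp hKN hcN,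
      Finset.disjoint_right.mp hYN haN, Finset.disjoint_right.mp hYN hbN,
      Finset.disjoint_right.mp hYN hcN, ?_⟩
    · rw [← hNe]
      ext v
      simp only [hYd, mem_union, mem_sdiff, not_or]
      constructor
      · intro hv
        by_cases h1 : v ∈ K
        · exact Or.inl (Or.inl h1)
        · by_cases h2 : v ∈ N
          · exact Or.inr h2
          · exact Or.inl (Or.inr ⟨hv, h1, h2⟩)
      · rintro ((h1 | h1) | h1)
        · exact hK h1
        · exact h1.1
        · exact hNU h1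
    · intro x hx y hy
      by_contra hne
      have hyK : y ∉ K := Finset.disjoint_left.mp hYK hy
      exact Finset.disjoint_left.mp hYN hy (mem_nb.mpr ⟨hyK, x, hx, hne⟩)
  have hUKcard : (U \ K).card = U.card - K.card := Finset.card_sdiff_of_subset hK
  have hKle : K.card ≤ U.card := Finset.card_le_card hK
  obtain ⟨x₀, hx₀⟩ : K.Nonempty := Finset.card_pos.mp (by omega)
  rcases Nat.even_or_odd K.card with hKe | hKo
  · obtain ⟨n₁, n₂, n₃, hrg⟩ := Pool.Agent.Helper77.RG3.gev V U K Y w r a b c h hr hsep hKe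
    refine ⟨U \ K, _, r, le_rfl, by omega, hrg, ?_,
      gad_even g.tye g.lev g.spg g.rea g.clp h hr nt h3 cs hsep hK hKe hK2 hY2 hNe n₁ n₂ n₃ hrg⟩
    intro hc
    refine nc (Col.sub hc (fun u v => ?_) (del_symm h K))
    omega
  · have hK3 : 3 ≤ K.card := by
      obtain ⟨k, hk⟩ := hKo
      omega
    have hxUK : x₀ ∉ U \ K := fun hh => (mem_sdiff.mp hh).2 hx₀
    have fin : ∀ a b c : V, Sep U w K Y a b c → N = {a, b, c} →
        (∃ Q, Q ⊆ insert b (insert c K) ∧ Pth (Adj w) Q b c ∧ Even Q.card) → Stc U w r := by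
      intro a b c hsep hNe hQ
      obtain ⟨n₁, n₂, n₃, n₄, hrg⟩ :=
        Pool.Agent.Helper54.RG3.god V U K Y w r a b c x₀ h hr hsep hKo hx₀
      refine ⟨insert x₀ (U \ K), _, r, le_rfl, ?_, hrg, ?_,
        gad_odd g.tyo g.lod g.spg g.rea g.clp h hr nt h3 cs hsep hK hKo hK2 hY2 hNe hx₀ hQ n₁ n₂
          n₃ n₄ hrg⟩
      · rw [Finset.card_insert_of_notMem hxUK]
        omega
      · intro hc
        refine nc (Col.sub hc (fun u v => ?_) (del_symm h K))
        omega
    have hRs := adj_symm h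
    have hRi : ∀ x, ¬ Adj w x x := fun x hx => hx (h.irr x)
    obtain ⟨⟨m3, m3', -⟩, m1⟩ := g.tyo V U K Y w r a b c h hr nt hsep hKo hK2 hY2
    rcases g.odp V (Adj w) K a b c hRs hRi hab hac hbc hsep.aX hsep.bX hsep.cX ⟨m3, m3'⟩ m1 with
      hQ | hQ | hQ
    · exact fin a b c hsep hNe hQ
    · refine fin b a c (sep_swap12 hsep) ?_ hQ
      rw [hNe]; ext; simp; tauto
    · refine fin c a b (sep_swap12 (sep_swap23 hsep)) ?_ hQ
      rw [hNe]; ext; simp; tauto

theorem cs_i4 (g : Gls) (h : RG U w r) (hr : 0 < r) (nc : ¬ Col w r) (nt : NT U w r)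
    (h3 : C3 U w) (cs : CS U w) (hi : ¬ I4 U w) : Stc U w r := by
  unfold I4 at hi
  push Not at hi
  obtain ⟨K, hK, hK2, hY2, hN4⟩ := hi
  set N := nb (Adj w) K with hN
  set Y := U \ (K ∪ N) with hYd
  have hNU : N ⊆ U := nb_sub h K
  have hKN : Disjoint K N := nb_disj _ K
  have hYU : Y ⊆ U := Finset.sdiff_subset
  have hYKN : Disjoint Y (K ∪ N) := Finset.sdiff_disjoint
  have hYK : Disjoint Y K := Finset.disjoint_of_subset_right Finset.subset_union_left hYKN
  have hYN : Disjoint Y N := Finset.disjoint_of_subset_right Finset.subset_union_right hYKN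
  have hKne : K.Nonempty := Finset.card_pos.mp (by omega)
  have hYne : Y.Nonempty := Finset.card_pos.mp (by omega)
  have hN3 : N.card = 3 := by
    have := h3 K hK hKne (by
      intro he
      obtain ⟨y, hy⟩ := hYne
      exact Finset.disjoint_left.mp hYKN hy (by rw [he]; exact hYU hy))
    rw [← hN] at this
    omega
  obtain ⟨a, b, c, hab, hac, hbc, hNe⟩ := Finset.card_eq_three.mp hN3
  have haN : a ∈ N := by rw [hNe]; simp
  have hbN : b ∈ N := by rw [hNe]; simp
  have hcN : c ∈ N := by rw [hNe]; simp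
  have hzero : ∀ x ∈ K, ∀ y ∈ Y, w x y = 0 := by
    intro x hx y hy
    by_contra hne
    have hyK : y ∉ K := Finset.disjoint_left.mp hYK hy
    exact Finset.disjoint_left.mp hYN hy (mem_nb.mpr ⟨hyK, x, hx, hne⟩)
  have hsep : Sep U w K Y a b c := by
    refine ⟨hab, hac, hbc, ?_, hYK.symm, Finset.disjoint_right.mp hKN haN,
      Finset.disjoint_right.mp hKN hbN, Finset.disjoint_right.mp hKN hcN,
      Finset.disjoint_right.mp hYN haN, Finset.disjoint_right.mp hYN hbN,
      Finset.disjoint_right.mp hYN hcN, hzero⟩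
    rw [← hNe]
    ext v
    simp only [hYd, mem_union, mem_sdiff, not_or]
    constructor
    · intro hv
      by_cases h1 : v ∈ K
      · exact Or.inl (Or.inl h1)
      · by_cases h2 : v ∈ N
        · exact Or.inr h2
        · exact Or.inl (Or.inr ⟨hv, h1, h2⟩)
    · rintro ((h1 | h1) | h1)
      · exact hK h1
      · exact h1.1
      · exact hNU h1
  by_cases c2 : Col (del w K) r
  · have c1 : ¬ Col (tch w K) r := fun c1 => nc (gl3 V U K Y w r a b c h hr hsep c1 c2)
    -- the other side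
    have hnbY : nb (Adj w) Y ⊆ N := by
      intro v hv
      rw [mem_nb] at hv
      obtain ⟨hvY, y, hy, hyv⟩ := hv
      have hvU : v ∈ U := h.supp' hyv
      by_contra hvN
      by_cases hvK : v ∈ K
      · apply hyv
        rw [h.symm]
        exact hzero v hvK y hy
      · apply hvY
        rw [hYd, mem_sdiff, mem_union]
        tauto
    have hnbY3 : 3 ≤ (nb (Adj w) Y).card := by
      refine h3 Y hYU hYne ?_
      intro he
      obtain ⟨x, hx⟩ := hKne
      have hxU := hK hx
      rw [← he, mem_union] at hxU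
      rcases hxU with h1 | h1
      · exact Finset.disjoint_left.mp hYK h1 hx
      · exact Finset.disjoint_left.mp hKN hx (hnbY h1)
    have hnbYe : nb (Adj w) Y = N := Finset.eq_of_subset_of_card_le hnbY (by omega)
    have hUe : U \ (Y ∪ nb (Adj w) Y) = K := by
      rw [hnbYe]
      ext v
      simp only [mem_sdiff, mem_union, hYd, not_or]
      constructor
      · rintro ⟨h1, h2, h3⟩
        by_contra hvK
        exact h2 ⟨h1, hvK, h3⟩
      · intro hv
        refine ⟨hK hv, fun h1 => h1.2.1 hv, Finset.disjoint_left.mp hKN hv⟩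
    refine cs_gad g h hr nt h3 cs hYU hY2 (by rw [hnbYe]; exact hN3) (by rw [hUe]; exact hK2) ?_
    intro hc
    refine c1 (Col.sub hc (fun u v => ?_) (tch_symm h K))
    unfold tch del
    by_cases h1 : u ∈ K ∨ v ∈ K
    · rw [if_pos h1]
      by_cases h2 : u ∈ Y ∨ v ∈ Y
      · rw [if_pos h2]
        apply le_of_eq
        rcases h1 with h1 | h1
        · rcases h2 with h2 | h2
          · exact absurd h1 (Finset.disjoint_left.mp hYK h2)
          · exact hzero u h1 v h2
        · rcases h2 with h2 | h2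
          · rw [h.symm]
            exact hzero v h1 u h2
          · exact absurd h1 (Finset.disjoint_left.mp hYK h2)
      · rw [if_neg h2]
    · rw [if_neg h1]
      exact Nat.zero_le _
  · exact cs_gad g h hr nt h3 cs hK hK2 hN3 hY2 c2

/-- An uncolourable graph in `CS` leads to a critical graph in `CS`. -/
theorem crit_cs (g : Gls) : ∀ (n : ℕ) (U : Finset V) (w : V → V → ℕ) (r : ℕ), U.card + r ≤ n →
    RG U w r → ¬ Col w r → CS U w → ∃ (U' : Finset V) (w' : V → V → ℕ) (r' : ℕ),
      Crit U' w' r' ∧ CS U' w' := by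
  intro n
  induction n with
  | zero =>
    intro U w r hle h nc
    exfalso
    have hr0 : r = 0 := by omega
    subst hr0
    exact nc (col_zero h)
  | succ n ih =>
    intro U w r hle h nc cs
    have fin : Stc U w r → ∃ (U' : Finset V) (w' : V → V → ℕ) (r' : ℕ),
        Crit U' w' r' ∧ CS U' w' := by
      rintro ⟨U₁, w₁, r₁, hr₁, hlt, h₁, nc₁, cs₁⟩
      exact ih U₁ w₁ r₁ (by omega) h₁ nc₁ cs₁
    rcases Nat.eq_zero_or_pos r with hr0 | hr
    · subst hr0
      exact absurd (col_zero h) nc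
    · by_cases hcn : CN U w
      · by_cases hnt : NT U w r
        · by_cases hbd : BD U w r
          · have h10 := ten_le Pool.Agent.Helper35.RG3.xpm h hr hnt hbd
            have h3 := three_conn h hr (by omega) hcn hnt
            by_cases hi : I4 U w
            · exact ⟨U, w, r, ⟨h, hr, nc, hcn, hnt, hbd, h3, hi, h10⟩, cs⟩
            · exact fin (cs_i4 g h hr nc hnt h3 cs hi)
          · exact fin (cs_bd h hr nc cs hbd)
        · exact fin (cs_nt g.lnt h hr nc cs hcn hnt)
      · exact fin (cs_cn h nc cs hcn)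

/-- Every `r`-graph in `CS` is class 1. -/
theorem col_of_cs (g : Gls) (hc : G_CRT) (h : RG U w r) (cs : CS U w) : Col w r := by
  by_contra nc
  obtain ⟨U', w', r', h1, h2⟩ := crit_cs g _ U w r le_rfl h nc cs
  exact hc V U' w' r' h1 h2

/-- The theorem in the form of the frozen statement. -/
theorem main (g : Gls) (hc : G_CRT) (hM : G_MNG) (V E : Type) [Fintype V] [Fintype E]
    (ends : E → Sym2 V) (r : ℕ)
    (hl : ∀ e, ¬ (ends e).IsDiag)
    (hr : ∀ v : V, {e : E | v ∈ ends e}.ncard = r)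
    (hcut : ∀ X : Finset V, Odd X.card →
      r ≤ {e : E | ∃ u ∈ X, ∃ w ∉ X, ends e = s(u, w)}.ncard)
    (hno : ¬ ∃ (a b : V)
        (p : (SimpleGraph.fromRel (fun u w : V => ∃ e, ends e = s(u, w))).Walk a a)
        (q : (SimpleGraph.fromRel (fun u w : V => ∃ e, ends e = s(u, w))).Walk b b),
      p.IsCycle ∧ q.IsCycle ∧ Odd p.length ∧ Odd q.length ∧ 5 ≤ p.length ∧ 5 ≤ q.length ∧
      (∀ x, x ∈ p.support → x ∉ q.support) ∧
      ∃ (x y : Fin 4 → V)
        (s : ∀ i, (SimpleGraph.fromRel (fun u w : V => ∃ e, ends e = s(u, w))).Walk (x i) (y i)),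
        (∀ i, x i ∈ p.support ∧ y i ∈ q.support) ∧
        ∀ i j, i ≠ j → ∀ z, z ∈ (s i).support → z ∉ (s j).support) :
    ∃ c : E → Fin r, ∀ e₁ e₂ : E, e₁ ≠ e₂ →
      (∃ v, v ∈ ends e₁ ∧ v ∈ ends e₂) → c e₁ ≠ c e₂ := by
  classical
  obtain ⟨h1, h2⟩ := Pool.Agent.Helper39.RG3.cv1 V E ends r hl hr hcut
  refine h2 (col_of_cs g hc h1 ?_)
  have hadj : ∀ u v : V, Adj (wt ends) u v ↔
      (SimpleGraph.fromRel (fun u w : V => ∃ e, ends e = s(u, w))).Adj u v := by
    intro u v
    rw [SimpleGraph.fromRel_adj]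
    unfold Adj wt
    rw [Ne, Finset.card_eq_zero, ← Ne, ← Finset.nonempty_iff_ne_empty]
    constructor
    · rintro ⟨e, he⟩
      simp only [mem_filter, mem_univ, true_and] at he
      refine ⟨?_, Or.inl ⟨e, he⟩⟩
      rintro rfl
      apply hl e
      rw [he]
      exact rfl
    · rintro ⟨-, ⟨e, he⟩ | ⟨e, he⟩⟩
      · exact ⟨e, by simpa using he⟩
      · exact ⟨e, by simp [he, Sym2.eq_swap]⟩
  intro S T _ _ hd hSL hTL
  refine SP.mono (fun x y => (hadj x y).mp) (hM V _ hno S T hd ?_ ?_)
  · exact hSL.mono fun x _ y _ => (hadj x y).mp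
  · exact hTL.mono fun x _ y _ => (hadj x y).mp

end Pool.Agent.Helper18.RL
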