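import Mathlib
import Pool.Agent.Helper18.RL.Crit
import Pool.Agent.Helper12.RL.TRI
import Pool.Agent.Helper13.RL.STB
import Pool.Agent.Helper14.RL.FRC
import Pool.Agent.Helper15.RL.TYO
import Pool.Agent.Helper17.RL.LOD
import Pool.Agent.Helper2.RL.OCY
import Pool.Agent.Helper24.RL.CLS
import Pool.Agent.Helper27.RL.TCM
import Pool.Agent.Helper3.RL.SPG
import Pool.Agent.Helper30.RL.REA
import Pool.Agent.Helper35.RL.CLP
import Pool.Agent.Helper4.RL.CRT
import Pool.Agent.Helper48.RL.VIO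
import Pool.Agent.Helper56.RL.TYE
import Pool.Agent.Helper70.RL.LNT
import Pool.Agent.Helper72.RL.COL
import Pool.Agent.Helper78.RL.CUT
import Pool.Agent.Helper83.RL.MNG
import Pool.Agent.Helper86.RL.LEV
import Pool.Agent.Helper95.RL.ODP
import Pool.Agent.Helper96.RL.ALT

set_option autoImplicit false

namespace Pool.Agent.Helper18.RL

theorem asm : Gls ∧ G_CRT := by
  have hCOL := Pool.Agent.Helper72.RL.gcol
  have hOCY := Pool.Agent.Helper2.RL.gocy
  have hALT := Pool.Agent.Helper96.RL.galt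
  have hFRC := Pool.Agent.Helper14.RL.gfrc hCOL
  have hCLS := Pool.Agent.Helper24.RL.gcls hFRC
  have hTCM := Pool.Agent.Helper27.RL.gtcm hCLS
  have hLEV := Pool.Agent.Helper86.RL.glev hALT
  have hODP := Pool.Agent.Helper95.RL.godp hALT
  have hLOD := Pool.Agent.Helper17.RL.glod hALT
  have hCLP := Pool.Agent.Helper35.RL.gclp
  have hCUT := Pool.Agent.Helper78.RL.gcut
  have hSTB := Pool.Agent.Helper13.RL.gstb
  have hTRI := Pool.Agent.Helper12.RL.gtri
  have hVIO := Pool.Agent.Helper48.RL.gvio hCUT hSTB hOCY hTRI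
  have hCRT := Pool.Agent.Helper4.RL.gcrt hVIO
  have hLNT := Pool.Agent.Helper70.RL.glnt hTCM hALT
  have hTYE := Pool.Agent.Helper56.RL.gtye hCLS
  have hTYO := Pool.Agent.Helper15.RL.gtyo hCLS
  have hSPG := Pool.Agent.Helper3.RL.gspg
  have hREA := Pool.Agent.Helper30.RL.grea
  exact ⟨⟨hLNT, hTYE, hTYO, hLEV, hODP, hLOD, hSPG, hREA, hCLP⟩, hCRT⟩

end Pool.Agent.Helper18.RL
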